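import Mathlib

/-!
# The word algebra (project MP_86dbc7_gt, helper317)

Words over an alphabet `D` of darts.  Every dart `d` has two values in a linear order `Λ`:
`o d` (used when a pass leaves through `d`) and `i d` (used when a pass arrives through `d`).
-/

set_option autoImplicit false
set_option linter.unusedVariables false

namespace Pool.Agent.TH317.CC

open Finset

section WordAlgebra

/-- linking coefficient of two passes, a pass being a pair `(in, out)` -/
def lk {Λ : Type*} [LinearOrder Λ] (a b : Λ × Λ) : ℤ :=
  (if a.2 ≤ b.2 then 1 else 0) - (if a.2 ≤ b.1 then 1 else 0)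
    - (if a.1 < b.2 then 1 else 0) + (if a.1 < b.1 then 1 else 0)

/-- linking coefficient when the first pass is the base pass -/
def lkb {Λ : Type*} [LinearOrder Λ] (a b : Λ × Λ) : ℤ :=
  (if a.2 ≤ b.2 then 1 else 0) - (if a.2 ≤ b.1 then 1 else 0)
    - (if a.1 < b.2 then 1 else 0) + (if a.1 ≤ b.1 then 1 else 0)

variable {D Λ R : Type*} [LinearOrder Λ] [CommRing R] [Inhabited D] (i o : D → Λ)

/-- the `k`-th pass of the cyclic word `w`: arrive through the letter before position `k`,
leave through the letter at position `k` -/
def pass (w : List D) (k : ℕ) : Λ × Λ :=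
  (i (w.getD (if k = 0 then w.length - 1 else k - 1) default), o (w.getD k default))

/-- the coefficient of the cut at positions `j < k` -/
def cf (w : List D) (j k : ℕ) : ℤ :=
  if j = 0 then lkb (pass i o w j) (pass i o w k) else lk (pass i o w j) (pass i o w k)

/-- the leaf of the cut at `j < k` : the letters at positions `j, ..., k-1` -/
def leaf {D : Type*} (w : List D) (j k : ℕ) : List D := (w.take k).drop j

/-- the rest of the cut at `j < k` -/
def rest {D : Type*} (w : List D) (j k : ℕ) : List D := w.take j ++ w.drop k

/-- the cut operator: sum over all cuts `0 ≤ j < k ≤ w.length - 1` -/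
def L (X g : List D → R) (w : List D) : R :=
  ∑ k ∈ range w.length, ∑ j ∈ range k,
    (cf i o w j k : R) * X (leaf w j k) * g (rest w j k)

/-- the bracket -/
def br (X Y : List D → R) (w : List D) : R := L i o X Y w - L i o Y X w

/-- iterated cuts: `K X 0 = X`, `K X (n+1) = L X (K X n)` -/
def K (X : List D → R) : ℕ → List D → R
  | 0 => X
  | n + 1 => L i o X (K X n)

end WordAlgebra

/-! ### Ribbon graphs -/

/-- a ribbon graph, the cyclic orders at the vertices being induced by a linear order in which the
darts leaving a given vertex form a block -/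
structure Rib (D V Λ : Type*) [LinearOrder Λ] where
  /-- the opposite dart -/
  inv : D → D
  /-- position -/
  pos : D → Λ
  /-- the tail (initial vertex) of a dart -/
  tl : D → V
  inv_inv : ∀ d, inv (inv d) = d
  noloop : ∀ d, tl (inv d) ≠ tl d
  pos_inj : Function.Injective pos
  block : ∀ a b c, tl a = tl b → tl c ≠ tl a → (pos c < pos a ↔ pos c < pos b)

section Ribbon

variable {D V Λ : Type*} [LinearOrder Λ] (G : Rib D V Λ)

/-- the head of a dart -/
def Rib.hd (d : D) : V := G.tl (G.inv d)

/-- in-value -/
def Rib.ipos (d : D) : Λ := G.pos (G.inv d)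

/-- `w` is a walk from `v` to `v'` -/
def Walk : V → V → List D → Prop
  | v, v', [] => v = v'
  | v, v', d :: l => G.tl d = v ∧ Walk (G.hd d) v' l

/-- closed walks -/
def CW (w : List D) : Prop := ∃ v, Walk G v v w

/-- the reverse of a walk -/
def Rib.rev (w : List D) : List D := (w.map G.inv).reverse

/-- faces: closed walks with distinct vertices, no dart being strictly (counterclockwise) between
the outgoing dart `b` and the reverse of the incoming dart `a` at any of the corners -/
structure IsFace (f : List D) : Prop where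
  len : 3 ≤ f.length
  cw : CW G f
  nodup : (f.map G.tl).Nodup
  corner : ∀ (k : ℕ) (a b : D) (l : List D), f.rotate k = a :: b :: l →
    ∀ d, G.tl d = G.tl b →
      (G.pos b < G.pos (G.inv a) ∧ ¬ (G.pos b < G.pos d ∧ G.pos d < G.pos (G.inv a))) ∨
      (G.pos (G.inv a) < G.pos b ∧ G.pos (G.inv a) ≤ G.pos d ∧ G.pos d ≤ G.pos b)

/-- elementary deletions: a spur or a face -/
inductive Del (Fc : Set (List D)) : List D → List D → Prop
  | spur (u : List D) (a : D) (v : List D) : Del Fc (u ++ [a, G.inv a] ++ v) (u ++ v)
  | face (u f v : List D) : f ∈ Fc → Del Fc (u ++ f ++ v) (u ++ v)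

/-- a family of levels of closed walks, stable (with a loss of one level) under cuts,
insertions and deletions -/
structure Lev (Fc : Set (List D)) (Rl : ℕ → List D → Prop) [Inhabited D] : Prop where
  cw : ∀ n w, Rl n w → CW G w
  mono : ∀ n w, Rl (n + 1) w → Rl n w
  cutl : ∀ n w j k, Rl (n + 1) w → j < k → k < w.length →
    G.tl (w.getD j default) = G.tl (w.getD k default) → Rl n (leaf w j k)
  cutr : ∀ n w j k, Rl (n + 1) w → j < k → k < w.length →
    G.tl (w.getD j default) = G.tl (w.getD k default) → Rl n (rest w j k)
  ins : ∀ n w w', Rl (n + 1) w' → Del G Fc w w' → CW G w → Rl n w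
  del : ∀ n w w', Rl (n + 1) w → Del G Fc w w' → Rl n w'
  rot : ∀ n a l, Rl n (a :: l) → Rl n (l ++ [a])

/-- class functions -/
structure Cls {R : Type*} [CommRing R] (Fc : Set (List D)) (Rl : ℕ → List D → Prop)
    (X : List D → R) : Prop where
  rot : ∀ a l, X (a :: l) = X (l ++ [a])
  del : ∀ w w', Del G Fc w w' → Rl 0 w → Rl 0 w' → X w = X w'
  nil : X [] = 0

/-- elementary steps at level `n` -/
def Step (Fc : Set (List D)) (Rl : ℕ → List D → Prop) (n : ℕ) (w w' : List D) : Prop :=
  Rl n w ∧ Rl n w' ∧
    (Del G Fc w w' ∨ Del G Fc w' w ∨ ∃ a l, w = a :: l ∧ w' = l ++ [a])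

end Ribbon

end Pool.Agent.TH317.CC
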