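import Pool.Agent.TH317.CC.Gen

/-!
# Planar drawings and generic arrangements of chart lines
(project MP_86dbc7_gt, helper317)
-/

set_option autoImplicit false
set_option linter.unusedVariables false

universe u

namespace Pool.Agent.TH317.CC

open Finset

/-! ### Planar drawings -/

/-- determinant of two plane vectors -/
def det2 (A B : ℝ × ℝ) : ℝ := A.1 * B.2 - A.2 * B.1

/-- smoothed intersection number of two plane arcs `c`, `d` with derivatives `c'`, `d'` -/
noncomputable def Ipsi (ψ : ℝ → ℝ) (c c' d d' : ℝ → ℝ × ℝ) : ℝ :=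
  ∫ s in (0 : ℝ)..1, ∫ t in (0 : ℝ)..1,
    ψ ((c s).1 - (d t).1) * ψ ((c s).2 - (d t).2) * det2 (c' s) (d' t)

/-- the same for the first halves of the arcs -/
noncomputable def Ihalf (ψ : ℝ → ℝ) (c c' d d' : ℝ → ℝ × ℝ) : ℝ :=
  ∫ s in (0 : ℝ)..(1 / 2), ∫ t in (0 : ℝ)..(1 / 2),
    ψ ((c s).1 - (d t).1) * ψ ((c s).2 - (d t).2) * det2 (c' s) (d' t)

/-- rescaled kernel -/
noncomputable def scal (ψ : ℝ → ℝ) (ε x : ℝ) : ℝ := ψ (x / ε) / ε

/-- limit of the smoothed intersection number of two half arcs with initial directions `A`, `B` -/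
noncomputable def kap (ψ : ℝ → ℝ) (A B : ℝ × ℝ) : ℝ :=
  ∫ s in Set.Ioi (0 : ℝ), ∫ t in Set.Ioi (0 : ℝ),
    ψ (s * A.1 - t * B.1) * ψ (s * A.2 - t * B.2) * det2 A B

/-- the four directions at a crossing -/
def dir4 (A B : ℝ × ℝ) : ℕ → ℝ × ℝ
  | 0 => A
  | 1 => B
  | 2 => -A
  | _ => -B

section Draw

variable {D V Λ : Type*} [LinearOrder Λ]

/-- `d` touches the set of vertices `S` -/
def Rib.touch (G : Rib D V Λ) (S : Set V) (d : D) : Prop := G.tl d ∈ S ∨ G.hd d ∈ S

/-- a drawing in the plane, by `C^1` arcs, of the part of the ribbon graph touching `S`; the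
vertices of `S` are mapped in the convex open set `B`, the other end points of darts touching `S`
are mapped outside `B` -/
structure Draw (G : Rib D V Λ) (S : Set V) (B : Set (ℝ × ℝ)) (P : V → ℝ × ℝ)
    (c c' : D → ℝ → ℝ × ℝ) (code : D → ℕ) : Prop where
  start : ∀ d, G.touch S d → c d 0 = P (G.tl d)
  rev : ∀ d, G.touch S d → ∀ t ∈ Set.Icc (0 : ℝ) 1, c (G.inv d) t = c d (1 - t)
  rev' : ∀ d, G.touch S d → ∀ t ∈ Set.Icc (0 : ℝ) 1, c' (G.inv d) t = - c' d (1 - t)
  deriv : ∀ d, G.touch S d → ∀ t ∈ Set.Icc (0 : ℝ) 1,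
    HasDerivWithinAt (c d) (c' d t) (Set.Icc 0 1) t
  cderiv : ∀ d, G.touch S d → ContinuousOn (c' d) (Set.Icc 0 1)
  inj : ∀ d, G.touch S d → Set.InjOn (c d) (Set.Icc 0 1)
  disj : ∀ d d', G.touch S d → G.touch S d' → d' ≠ d → d' ≠ G.inv d →
    ∀ s ∈ Set.Icc (0 : ℝ) 1, ∀ t ∈ Set.Icc (0 : ℝ) 1, c d s = c d' t →
      (s = 0 ∨ s = 1) ∧ (t = 0 ∨ t = 1)
  Pinj : ∀ d d', G.touch S d → G.touch S d' → P (G.tl d) = P (G.tl d') → G.tl d = G.tl d'
  dir : ∀ v ∈ S, ∃ A B' : ℝ × ℝ, 0 < det2 A B' ∧ ∀ d, G.tl d = v →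
    code d < 4 ∧ ∃ μ : ℝ, 0 < μ ∧ c' d 0 = μ • dir4 A B' (code d)
  code_pos : ∀ d d', G.tl d = G.tl d' → G.tl d ∈ S → (G.pos d < G.pos d' ↔ code d < code d')
  Bopen : IsOpen B
  Bconv : Convex ℝ B
  inB : ∀ d, G.tl d ∈ S → G.hd d ∈ S → ∀ t ∈ Set.Icc (0 : ℝ) 1, c d t ∈ B
  outB : ∀ d, G.touch S d → G.tl d ∉ S → P (G.tl d) ∉ B

end Draw

/-! ### Arrangements of chart lines -/

/-- finitely many charts with values in the plane, `C^1` compatible and orientation compatible,
whose images contain the closed unit square -/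
structure BoxCharts (M : Type u) [TopologicalSpace M] (n : ℕ) where
  /-- the charts -/
  e : Fin n → OpenPartialHomeomorph M (ℝ × ℝ)
  box : ∀ i, I2 ⊆ (e i).target
  smooth : ∀ i j, ContDiffOn ℝ 1 (fun p => e j ((e i).symm p)) ((e i).symm.trans (e j)).source
  orient : ∀ i j, ∀ p ∈ ((e i).symm.trans (e j)).source,
    0 < (fderiv ℝ (fun p => e j ((e i).symm p)) p).det

section Arr

variable {M : Type u} [TopologicalSpace M] {n : ℕ} (C : BoxCharts M n) (m : ℕ)
  (s : Fin n → Bool → ℝ)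

/-- index set of the lines: chart, orientation (`true` = vertical), number -/
abbrev LineIx (n m : ℕ) : Type := Fin n × Bool × Fin m

/-- the abscissa (ordinate) of the line `l` in its chart -/
noncomputable def lineC (l : LineIx n m) : ℝ := ((l.2.2 : ℕ) + s l.1 l.2.1) / m

/-- the line `l` in its own chart -/
noncomputable def lineP (l : LineIx n m) (t : ℝ) : ℝ × ℝ :=
  if l.2.1 then (lineC m s l, t) else (t, lineC m s l)

/-- the direction of the line `l` in its own chart -/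
def lineE (l : LineIx n m) : ℝ × ℝ := if l.2.1 then (0, 1) else (1, 0)

/-- the line `l` in `M` (used for `t ∈ [0, 1]`) -/
noncomputable def line (l : LineIx n m) (t : ℝ) : M := (C.e l.1).symm (lineP m s l t)

/-- the tangent vector of the line `l` in the chart `j` -/
noncomputable def tanv (j : Fin n) (l : LineIx n m) (t : ℝ) : ℝ × ℝ :=
  fderiv ℝ (fun p => C.e j ((C.e l.1).symm p)) (lineP m s l t) (lineE m l)

/-- generic arrangement: offsets in `(0, 1)`, finitely many transversal crossings, no triple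
points -/
structure Generic : Prop where
  off : ∀ i o, 0 < s i o ∧ s i o < 1
  fin : ∀ l l', l ≠ l' → {q : ℝ × ℝ | q.1 ∈ Set.Icc (0 : ℝ) 1 ∧ q.2 ∈ Set.Icc (0 : ℝ) 1 ∧
    line C m s l q.1 = line C m s l' q.2}.Finite
  trans : ∀ l l', l ≠ l' → ∀ t ∈ Set.Icc (0 : ℝ) 1, ∀ t' ∈ Set.Icc (0 : ℝ) 1,
    line C m s l t = line C m s l' t' → ∀ j, line C m s l t ∈ (C.e j).source →
      det2 (tanv C m s j l t) (tanv C m s j l' t') ≠ 0
  no3 : ∀ l l' l'', l ≠ l' → l' ≠ l'' → l ≠ l'' → ∀ t ∈ Set.Icc (0 : ℝ) 1,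
    ∀ t' ∈ Set.Icc (0 : ℝ) 1, ∀ t'' ∈ Set.Icc (0 : ℝ) 1,
      ¬ (line C m s l t = line C m s l' t' ∧ line C m s l t = line C m s l'' t'')

/-- the times of crossing on the line `l` -/
def crossT (l : LineIx n m) : Set ℝ :=
  {t | t ∈ Set.Icc (0 : ℝ) 1 ∧ ∃ l' ≠ l, ∃ t' ∈ Set.Icc (0 : ℝ) 1,
    line C m s l t = line C m s l' t'}

/-- the darts of the arrangement: a line and two consecutive crossing times -/
def ArrD : Type :=
  {d : LineIx n m × ℝ × ℝ // d.2.1 ∈ crossT C m s d.1 ∧ d.2.2 ∈ crossT C m s d.1 ∧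
    d.2.1 ≠ d.2.2 ∧ ∀ t ∈ crossT C m s d.1, ¬ (min d.2.1 d.2.2 < t ∧ t < max d.2.1 d.2.2)}

/-- tail -/
noncomputable def arrTl (d : ArrD C m s) : M := line C m s d.1.1 d.1.2.1

/-- opposite dart -/
def arrInv (d : ArrD C m s) : ArrD C m s :=
  ⟨(d.1.1, d.1.2.2, d.1.2.1), d.2.2.1, d.2.1, d.2.2.2.1.symm, by
    intro t ht h
    exact d.2.2.2.2 t ht (by simpa [min_comm, max_comm] using h)⟩

open Classical in
/-- code of the dart among the darts leaving the same vertex: `0, 1, 2, 3` counterclockwise -/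
noncomputable def arrCode (d : ArrD C m s) : ℕ :=
  (if ∃ l' ≠ d.1.1, ∃ t' ∈ Set.Icc (0 : ℝ) 1,
      line C m s d.1.1 d.1.2.1 = line C m s l' t' ∧
      0 < det2 (tanv C m s d.1.1.1 d.1.1 d.1.2.1) (tanv C m s d.1.1.1 l' t') then 0 else 1) +
  (if d.1.2.1 < d.1.2.2 then 0 else 2)

/-- `G` is the ribbon graph of the arrangement: positions are ordered first by the vertex (some
linear order on `M`, given by an injective map `ν` to a linear order) and then by the code -/
structure IsArrRib {N : Type*} [LinearOrder N] (ν : M → N)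
    (G : Rib (ArrD C m s) M (N ×ₗ ℕ)) : Prop where
  nu : Function.Injective ν
  tl : G.tl = arrTl C m s
  inv : G.inv = arrInv C m s
  pos : ∀ d, G.pos d = toLex (ν (arrTl C m s d), arrCode C m s d)

/-- the open rectangle between the vertical lines number `k₁ < k₂` and the horizontal lines number
`k₃ < k₄` of the chart `i` -/
def rectS (i : Fin n) (k₁ k₂ k₃ k₄ : Fin m) : Set M :=
  {x | x ∈ (C.e i).source ∧
    lineC m s (i, true, k₁) < (C.e i x).1 ∧ (C.e i x).1 < lineC m s (i, true, k₂) ∧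
    lineC m s (i, false, k₃) < (C.e i x).2 ∧ (C.e i x).2 < lineC m s (i, false, k₄)}

/-- the closed box of radius `η` around `p` in the chart `i` -/
def boxS (i : Fin n) (p : ℝ × ℝ) (η : ℝ) : Set M :=
  {x | x ∈ (C.e i).source ∧ |(C.e i x).1 - p.1| ≤ η ∧ |(C.e i x).2 - p.2| ≤ η}

end Arr

/-- an oriented `C^1` surface: a family of charts with values in the plane, covering `M`, with
`C^1` and orientation preserving transition maps -/
structure OrSurf (M : Type u) [TopologicalSpace M] where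
  /-- the charts -/
  charts : Set (OpenPartialHomeomorph M (ℝ × ℝ))
  cover : ∀ x, ∃ e ∈ charts, x ∈ e.source
  smooth : ∀ e ∈ charts, ∀ e' ∈ charts,
    ContDiffOn ℝ 1 (fun p => e' (e.symm p)) (e.symm.trans e').source
  orient : ∀ e ∈ charts, ∀ e' ∈ charts, ∀ p ∈ (e.symm.trans e').source,
    0 < (fderiv ℝ (fun p => e' (e.symm p)) p).det

end Pool.Agent.TH317.CC
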