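import Pool.Agent.TH73.CC.LevelBGen
import Pool.Agent.TH889.CCDiscSmall
import Pool.Agent.TH692.CCA2
import Pool.Agent.TH692.CCA4
import Pool.Agent.TH124.CC.KRot
import Pool.Agent.TH798.CC.A4b
import Pool.Agent.TH55.CC_A3a
import Pool.Agent.TH55.CC_G1
import Pool.Agent.TH75.CC_A1
import Pool.Agent.TH75.CC_G3
import Pool.Agent.TH496.CCB2365
import Pool.Agent.TH267.CC_Spur
import Pool.Agent.TH938.CC.Face
import Pool.Agent.TH692.CCG2
import Pool.Agent.TH699.CCG2g

/-!
# Assembly of the discrete part (project MP_86dbc7_gt, helper317)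
-/

set_option autoImplicit false
set_option linter.unusedVariables false

universe u

namespace Pool.Agent.TH317.CC

section Word

variable {D Λ : Type*} [LinearOrder Λ] [Inhabited D]

/-- rotation invariance of `K X (p - 1)` in characteristic `p` -/
theorem K_rot {R : Type*} [CommRing R] (i o : D → Λ) (hi : Function.Injective i)
    (ho : Function.Injective o) (p : ℕ) [Fact p.Prime] [CharP R p] (X : List D → R)
    (hX : ∀ a u, X (a :: u) = X (u ++ [a])) (a : D) (u : List D) :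
    K i o X (p - 1) (a :: u) = K i o X (p - 1) (u ++ [a]) := by
  refine K_rot_of i o hi ho p ?_ ?_ X hX a u
  · intro b X Y w
    exact deriv_K _ _ p (fun X Y g w => L_preLie _ _ X Y g w) X Y w
  · intro b a hab Y Z hY hZ u
    refine br_rot_letter _ _ (some a) ?_ ?_ Y Z hY hZ u
    · intro x hx
      cases x with
      | none => exact absurd (hi hx).symm hab
      | some x => exact congrArg some (hi hx)
    · intro x hx
      cases x with
      | none => exact absurd (ho hx).symm hab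
      | some x => exact congrArg some (ho hx)

/-- the value of `K X (p - 1)` on `p`-th powers in characteristic `p` -/
theorem K_pow {R : Type*} [CommRing R] (i o : D → Λ) (hi : Function.Injective i)
    (ho : Function.Injective o) (p : ℕ) [Fact p.Prime] [CharP R p] (X : List D → R)
    (hX : ∀ a u, X (a :: u) = X (u ++ [a])) (u : List D) (hu : u ≠ []) :
    K i o X (p - 1) (List.replicate p u).flatten = X u ^ p := by
  refine K_pow_of i o p ?_ ?_ ?_ X hX u hu
  · intro X Y w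
    exact deriv_K _ _ p (fun X Y g w => L_preLie _ _ X Y g w) X Y w
  · intro Y Z hY hZ a u
    exact br_rot_letter i o a (fun b h => hi h) (fun b h => ho h) Y Z (hY a) (hZ a) u
  · intro Y Z hY hZ u
    refine br_pow_zero i o hi ho p ?_ Y Z hY hZ u
    intro m hm f c e h1 h2 h3 h4 h5 h6 h7 h8 h9 h10 h11 h12 h13 h14
    exact sumB p m hm f c e h1 h2 h3 h4 h5 (fun _ => rfl) h6 h7 h8 h9 h10 h11 h12 h13 h14

end Word

theorem Rib.inv_injective {D V Λ : Type*} [LinearOrder Λ] (G : Rib D V Λ) :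
    Function.Injective G.inv := fun a b h => by
  rw [← G.inv_inv a, h, G.inv_inv]

theorem Rib.ipos_injective {D V Λ : Type*} [LinearOrder Λ] (G : Rib D V Λ) :
    Function.Injective G.ipos := fun a b h => G.inv_injective (G.pos_inj h)

/-- the discrete theorem for faces -/
theorem hdisc_faces (p : ℕ) [Fact p.Prime] {M : Type u} [MetricSpace M] [Nonempty M] {D Λ : Type u}
    [LinearOrder Λ] [Inhabited D] (G : Rib D M Λ) (Fc : Set (List D)) (r ℓ : ℝ) (hr : 0 ≤ r)
    (hmesh : ∀ d, dist (G.tl d) (G.hd d) ≤ r) (hF : ∀ f ∈ Fc, IsFace G f)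
    (hFr : ∀ f ∈ Fc, ∀ c ∈ f, ∀ c' ∈ f, dist (G.tl c) (G.tl c') ≤ r)
    (Sm : List D → Prop) (hSm : ∀ w w', Sm w → (∀ a ∈ w', a ∈ w) → Sm w')
    (hSe : ∀ a w, (∀ b ∈ w, b = a ∨ b = G.inv a) → Sm w)
    (hSS : ∀ f ∈ Fc, ∀ w, (∀ b ∈ w, ∃ c ∈ f, b = c ∨ b = G.inv c) → Sm w)
    (v z : List D) (hv : v ≠ []) (hRv : Rl G r ℓ 0 v) (hz : Sm z)
    (h : Relation.ReflTransGen (Step G Fc (Rl G r ℓ) (4 * p + 8)) (List.replicate p v).flatten z) :
    ∃ z', Sm z' ∧ Relation.ReflTransGen (Step G Fc (Rl G r ℓ) 0) v z' := by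
  have hL : Lev G Fc (Rl G r ℓ) := lev_Rl G Fc r ℓ hr hmesh (fun f hf => (hF f hf).cw) hFr
  refine discrete_of p G Fc (Rl G r ℓ) hL hF Sm hSm hSe hSS ?_ ?_ ?_ ?_ v z hv hRv hz h
  · intro X hX a u
    exact K_rot _ _ G.ipos_injective G.pos_inj p X hX a u
  · intro X hX u hu
    exact K_pow _ _ G.ipos_injective G.pos_inj p X hX u hu
  · intro X hX n u v a e h1 h2 h3
    exact K_spur G Fc _ hL X hX n u v a e h1 h2 h3
  · intro X hX n u v f e hf h1 h2
    exact K_face G Fc _ hL X hX (fun n u v a e h1 h2 h3 => K_spur G Fc _ hL X hX n u v a e h1 h2 h3)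
      n u v f e hf (hF f hf) h1 h2

/-- the polygon theorem for spaces with fine cell systems -/
theorem levelB_cell (p : ℕ) [Fact p.Prime] {M : Type u} [MetricSpace M] (hM : FineCell M)
    (K : Set M) (hK : IsCompact K) (hKn : K.Nonempty) (L0 L1 : ℝ) (h01 : L0 < L1) :
    ∃ K' : Set M, IsCompact K' ∧ ∀ s > 0, ∃ b > 0, ∀ v : List M,
      PContr b L0 K (List.replicate p v).flatten → PContr s L1 K' v :=
  levelB (fun {M} _ {D Λ} _ _ G Fc K K' r a b ρ => lift_chain G Fc K K' r a b ρ)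
    (fun {M} _ {D Λ} _ _ G Fc K' r ℓ => descend G Fc K' r ℓ) p
    (fun {M} _ _ {D Λ} _ _ G Fc r ℓ hr hm hF hFr Sm h1 h2 h3 v z hv hRv hz h =>
      hdisc_faces p G Fc r ℓ hr hm hF hFr Sm h1 h2 h3 v z hv hRv hz h) hM K hK hKn L0 L1 h01

end Pool.Agent.TH317.CC
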