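import Pool.Agent.TH317.CC.Asm1
import Pool.Agent.TH370.CCA1
import Pool.Agent.TH370.CCA5
import Pool.Agent.TH237.LocalHomotopy
import Pool.Agent.TH11.ArcSwap
import Pool.Agent.TH576.CC_A4
import Pool.Agent.TH554.CC_RealInit
import Pool.Agent.TH576.CC_A7
import Pool.Agent.TH554.CC_MainAll
import Pool.Agent.TH73.CC.T4
import Pool.Agent.TH89.CCT2
import Pool.Agent.TH989.CC_T3
import Pool.Agent.TH883.CC.J2569
import Pool.Agent.TH124.CC.Cells

/-!
# Assembly of the curve part (project MP_86dbc7_gt, helper317)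
-/

set_option autoImplicit false
set_option linter.unusedVariables false

universe u

namespace Pool.Agent.TH317.CC

/-- from polygon chains of length `< L1` to contractions through curves of length `< L` -/
theorem contrLt_of_chain' {E : Type} [NormedAddCommGroup E] [NormedSpace ℝ E] {M : Type u}
    [MetricSpace M] (hM : LocLip E M) (hL : LocLen M) (γ : C(UnitAddCircle, M)) (K : Set M)
    (hK : IsCompact K) (L1 L : ℝ) (h1 : L1 < L) (hγ : clen γ < ENNReal.ofReal L) :
    ∃ s > 0, ∃ N₀, 0 < N₀ ∧ ∀ N ≥ N₀, PContr s L1 K (sample γ N) → ContrLt γ L := by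
  have hAR : ArcReplace M := arcReplace_of
    (fun {E} _ _ {M} _ h => local_homotopy h)
    (fun {M} _ f c d hcd hd G h1 h2 h3 h4 => arc_swap f c d hcd hd G h1 h2 h3 h4)
    (fun {M} _ f c d h1 h2 => clen_split f c d h1 h2) hM
  have hNA : NearArc M := nearArc_of_locLen hL
  exact contrLt_of_chain
    (fun K hK L1 L h => realize_step hAR hNA (fun f c d h1 h2 => clen_split f c d h1 h2) K hK L1 L h)
    (fun γ L h => realize_init hAR hNA (fun f c d h1 h2 => clen_split f c d h1 h2) γ L h)
    (fun K hK L h => realize_final hM K hK L h) γ K hK L1 L h1 hγ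

/-- the polygon theorem for `M` -/
def PolyThm (M : Type u) [MetricSpace M] : Prop :=
  ∀ (p : ℕ) [Fact (Nat.Prime p)] (K : Set M), IsCompact K → K.Nonempty → ∀ (L0 L1 : ℝ), L0 < L1 →
    ∃ K' : Set M, IsCompact K' ∧ ∀ s > 0, ∃ b > 0, ∀ v : List M,
      PContr b L0 K (List.replicate p v).flatten → PContr s L1 K' v

/-- from the polygon theorem to curves -/
theorem main_of_poly {E : Type} [NormedAddCommGroup E] [NormedSpace ℝ E] {M : Type u}
    [MetricSpace M] (hM : LocLip E M) (hL : LocLen M) (hP : PolyThm M) (m : ℕ) (hm : 1 ≤ m)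
    (γ : C(UnitAddCircle, M)) (L0 L : ℝ) (h0 : L0 < L) (h0' : 0 ≤ L0)
    (h : ContrLe (mult m γ) L0) : ContrLt γ L :=
  main_all (fun p hp γ L0 L1 h h0 hc => chain_of_contrLe p hp γ L0 L1 h h0 hc)
    (fun p _ K hK hKn L0 L1 h => hP p K hK hKn L0 L1 h)
    (fun γ K hK L1 L h1 h2 => contrLt_of_chain' hM hL γ K hK L1 L h1 h2) m hm γ L0 L h0 h0' h

/-- spaces with a square tiling have fine cell systems -/
theorem fineCell_of_tiling' {E : Type} [NormedAddCommGroup E] [NormedSpace ℝ E] {M : Type u}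
    [MetricSpace M] (hM : LocLip E M) (T : SqTiling M) : FineCell M :=
  fineCell_of_tiling (fun {E} _ _ {M} _ h => cells_fine h)
    (fun K hK hKn => tiling_cells (fun {M} _ T => tiling_half T)
      (fun {M} _ T F₀ h0 U hU h1 ρ h2 => tiling_cellsys T F₀ h0 U hU h1 ρ h2) T K hK hKn) hM

/-- the polygon theorem for spaces with a square tiling -/
theorem polyThm_of_tiling {E : Type} [NormedAddCommGroup E] [NormedSpace ℝ E] {M : Type u}
    [MetricSpace M] (hM : LocLip E M) (T : SqTiling M) : PolyThm M :=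
  fun p _ K hK hKn L0 L1 h => levelB_cell p (fineCell_of_tiling' hM T) K hK hKn L0 L1 h

/-- main theorem for spaces with a square tiling -/
theorem main_tiling {E : Type} [NormedAddCommGroup E] [NormedSpace ℝ E] {M : Type u}
    [MetricSpace M] (hM : LocLip E M) (hL : LocLen M) (T : SqTiling M) (m : ℕ) (hm : 1 ≤ m)
    (γ : C(UnitAddCircle, M)) (L0 L : ℝ) (h0 : L0 < L) (h0' : 0 ≤ L0)
    (h : ContrLe (mult m γ) L0) : ContrLt γ L :=
  main_of_poly hM hL (polyThm_of_tiling hM T) m hm γ L0 L h0 h0' h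

end Pool.Agent.TH317.CC
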