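import Pool.Agent.TH317.CC.Asm2
import Pool.Agent.TH811.CC.KSmall
import Pool.Agent.TH89.J2751.I4
import Pool.Agent.TH111.CC.Chc
import Pool.Agent.TH593.CC.ArrDraw
import Pool.Agent.TH611.ArrConn
import Pool.Agent.TH740.CCR2
import Pool.Agent.TH11.GenArr
import Pool.Agent.TH902.CC.I3
import Pool.Agent.TH993.HalfLimit
import Pool.Agent.TH959.CC_I1

/-!
# Assembly of the general version (project MP_86dbc7_gt, helper317)
-/

set_option autoImplicit false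
set_option linter.unusedVariables false

universe u v w

namespace Pool.Agent.TH317.CC

/-- drawings give vanishing local intersection numbers -/
theorem intZero_of_draw' {D : Type v} {V : Type u} {Λ : Type w} [LinearOrder Λ] [Inhabited D]
    (G : Rib D V Λ) (S : Set V) (B : Set (ℝ × ℝ)) (P : V → ℝ × ℝ) (c c' : D → ℝ → ℝ × ℝ)
    (code : D → ℕ) (h : Draw G S B P c c' code) : IntZero G S := by
  obtain ⟨ψ, ψ', h1, h2, h3, h4, h5⟩ := exists_kernel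
  have hc : Continuous ψ := continuous_iff_continuousAt.2 (fun x => (h1 x).continuousAt)
  exact intZero_of_draw
    (fun {D V Λ} _ G P c c' ζ v y y₁ y₂ hζ hv a1 a2 a3 B a4 a5 a6 ψ ψ' a7 a8 a9 a10 =>
      int_stokes G P c c' ζ v y y₁ y₂ hζ hv a1 a2 a3 B a4 a5 a6 ψ ψ' a7 a8 a9 a10)
    (fun ψ a1 a2 a a' b b' a3 a4 a5 a6 a7 a8 a9 a10 a11 =>
      half_limit ψ a1 a2 a a' b b' a3 a4 a5 a6 a7 a8 a9 a10 a11)
    (fun ψ a1 a2 a a' b b' a3 a4 a5 => half_zero ψ a1 a2 a a' b b' a3 a4 a5)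
    ψ ψ' h1 h2 h3 h4
    (fun A B μ ν hμ hν => kap_smul ψ hc h3 A B μ ν hμ hν)
    (fun A B => kap_neg ψ h4 A B) (fun A B => kap_antisymm ψ hc h3 h4 A B)
    (fun A μ => kap_opp ψ A μ) (fun A B h => kap_sum ψ hc h3 h4 h5 A B h)
    G S B P c c' code h

/-- oriented surfaces have fine graphs -/
theorem fineGraph_of_orSurf' {M : Type u} [MetricSpace M] (T : OrSurf M) : FineGraph M :=
  fineGraph_of_orSurf (fun {M} _ {n} C m hm => exists_generic C m hm)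
    (fun {M} _ {n} C m hm s hs {N} _ ν hν => exists_arrRib C m hm s hs ν hν)
    (fun {M} _ {n} C m hm s hs {N} _ ν G hG _ i k₁ k₂ k₃ k₄ h12 h34 => by
      obtain ⟨B, c, c', h⟩ := arr_draw C m hm s hs ν G hG i k₁ k₂ k₃ k₄ h12 h34
      exact intZero_of_draw' G _ B _ c c' _ h)
    (fun {M} _ {n} C m hm s hs {N} _ ν G hG i p η hη hmη hp1 hp2 hlong d d' hd hd' =>
      arr_conn C m hm s hs ν G hG i p η hη hmη hp1 hp2 hlong d d' hd hd') T

/-- the discrete theorem, general version -/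
theorem hdisc_gen (p : ℕ) [Fact p.Prime] {M : Type u} [MetricSpace M] [Nonempty M] {D Λ : Type u}
    [LinearOrder Λ] [Inhabited D] (G : Rib D M Λ) (r ℓ : ℝ) (hr : 0 ≤ r)
    (hmesh : ∀ d, dist (G.tl d) (G.hd d) ≤ r) (𝒮 : Set (Set M))
    (hint : ∀ S ∈ 𝒮, IntZero G S) (hdiam : ∀ S ∈ 𝒮, ∀ x ∈ S, ∀ y ∈ S, dist x y ≤ r)
    (Sm : List D → Prop) (hSm : ∀ w w', Sm w → (∀ a ∈ w', a ∈ w) → Sm w')
    (hSe : ∀ a w, (∀ b ∈ w, b = a ∨ b = G.inv a) → Sm w)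
    (hSS : ∀ S ∈ 𝒮, ∀ w, (∀ b ∈ w, G.tl b ∈ S) → Sm w)
    (v z : List D) (hv : v ≠ []) (hRv : Rl G r ℓ 0 v) (hz : Sm z)
    (h : Relation.ReflTransGen (Step G {ζ | ∃ S ∈ 𝒮, (∀ e ∈ ζ, G.tl e ∈ S) ∧ ∃ y, Walk G y y ζ}
      (Rl G r ℓ) (8 * p + 8)) (List.replicate p v).flatten z) :
    ∃ z', Sm z' ∧ Relation.ReflTransGen
      (Step G {ζ | ∃ S ∈ 𝒮, (∀ e ∈ ζ, G.tl e ∈ S) ∧ ∃ y, Walk G y y ζ} (Rl G r ℓ) 0) v z' := by
  have hL : Lev G {ζ | ∃ S ∈ 𝒮, (∀ e ∈ ζ, G.tl e ∈ S) ∧ ∃ y, Walk G y y ζ} (Rl G r ℓ) := by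
    refine lev_Rl G _ r ℓ hr hmesh ?_ ?_
    · rintro f ⟨S, hS, h1, y, hy⟩
      exact ⟨y, hy⟩
    · rintro f ⟨S, hS, h1, y, hy⟩ c hc c' hc'
      exact hdiam S hS _ (h1 c hc) _ (h1 c' hc')
  refine discrete_small p G _ (Rl G r ℓ) hL 𝒮 (fun f hf => hf) Sm hSm hSe hSS ?_ ?_ ?_ ?_
    v z hv hRv hz h
  · intro X hX a u
    exact K_rot _ _ G.ipos_injective G.pos_inj p X hX a u
  · intro X hX u hu
    exact K_pow _ _ G.ipos_injective G.pos_inj p X hX u hu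
  · intro X hX n u v a e h1 h2 h3
    exact K_spur G _ _ hL X hX n u v a e h1 h2 h3
  · intro X hX S hS n a u ζ v y hζ hζS ha hR
    exact K_small G _ _ hL X hX S (fun ζ y h1 h2 => ⟨S, hS, h2, y, h1⟩) (hint S hS) n a u ζ v y
      hζ hζS ha hR

/-- the polygon theorem for spaces with fine graphs -/
theorem polyThm_of_fineGraph {M : Type u} [MetricSpace M] (hM : FineGraph M) : PolyThm M :=
  fun p _ K hK hKn L0 L1 h01 =>
  levelB_gen
    (fun {M} _ {D Λ} _ _ G K K' r a b ρ => lift_small G K K' r a b ρ)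
    (fun {M} _ {D Λ} _ _ G Fc K' r ℓ => descend G Fc K' r ℓ) p
    (fun {M} _ _ {D Λ} _ _ G r ℓ hr hm 𝒮 h1 h2 Sm h3 h4 h5 v z hv hRv hz h =>
      hdisc_gen p G r ℓ hr hm 𝒮 h1 h2 Sm h3 h4 h5 v z hv hRv hz h) hM K hK hKn L0 L1 h01

/-- main theorem for oriented surfaces, for bounds on the supremum of the lengths -/
theorem main_orSurf {E : Type} [NormedAddCommGroup E] [NormedSpace ℝ E] {M : Type u}
    [MetricSpace M] (hM : LocLip E M) (hL : LocLen M) (T : OrSurf M) (m : ℕ) (hm : 1 ≤ m)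
    (γ : C(UnitAddCircle, M)) (L0 L : ℝ) (h0 : L0 < L) (h0' : 0 ≤ L0)
    (h : ContrLe (mult m γ) L0) : ContrLt γ L :=
  main_of_poly hM hL (polyThm_of_fineGraph (fineGraph_of_orSurf' T)) m hm γ L0 L h0 h0' h

end Pool.Agent.TH317.CC
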