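import Pool.Agent.TH317.CC.Asm3
import Pool.Agent.TH626.J2800
import Pool.Agent.TH959.CC_S3
import Pool.Agent.TH11.Midpt
import Pool.Agent.TH740.CCM1
import Pool.Agent.TH993.RiemLen
import Pool.Agent.TH645.CC.M4
import Pool.Agent.TH480.CC.S1
import Pool.Agent.TH740.CCM2

/-!
# Assembly of the Riemannian part (project MP_86dbc7_gt, helper317)
-/

set_option autoImplicit false
set_option linter.unusedVariables false

universe u

namespace Pool.Agent.TH317.CC

open Set Manifold Bundle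
open scoped ContDiff Topology

section Asm

variable {M : Type u} [EMetricSpace M]

theorem truncMetric_dist (x y : M) :
    @dist M (truncMetric M).toDist x y = (min (edist x y) 1).toReal := rfl

theorem truncMetric_dist_eq {x y : M} (h : edist x y ≤ 1) :
    @dist M (truncMetric M).toDist x y = (edist x y).toReal := by
  rw [truncMetric_dist, min_eq_left h]

end Asm

section AsmR

variable {E : Type} [NormedAddCommGroup E] [NormedSpace ℝ E] [FiniteDimensional ℝ E]
  {M : Type u} [EMetricSpace M] [ChartedSpace E M] [IsManifold 𝓘(ℝ, E) ∞ M]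
  [RiemannianBundle (fun x : M => TangentSpace 𝓘(ℝ, E) x)]
  [IsContMDiffRiemannianBundle 𝓘(ℝ, E) ∞ E (fun x : M => TangentSpace 𝓘(ℝ, E) x)]
  [IsRiemannianManifold 𝓘(ℝ, E) M]

variable (E M) in
include E in
theorem riem_locLen : @LocLen M (truncMetric M) := by
  intro x
  obtain ⟨U, hU, h⟩ := riem_len (E := E) x
  refine ⟨U ∩ Metric.eball x (1 / 2), Filter.inter_mem hU (Metric.eball_mem_nhds x (by norm_num)), ?_⟩
  intro y hy z hz ε hε
  obtain ⟨hyz, hh⟩ := h y hy.1 z hz.1
  obtain ⟨f, hf, f0, f1, hv⟩ := hh ε hε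
  refine ⟨f, hf, f0, f1, ?_⟩
  have hle : edist y z ≤ 1 := by
    have h1 : edist y z ≤ edist x y + edist x z := edist_triangle_left y z x
    have h2 : edist x y < 1 / 2 := by rw [edist_comm]; exact hy.2
    have h3 : edist x z < 1 / 2 := by rw [edist_comm]; exact hz.2
    refine h1.trans ?_
    calc edist x y + edist x z ≤ 1 / 2 + 1 / 2 := add_le_add h2.le h3.le
      _ = 1 := ENNReal.add_halves 1
  rw [eVar_trunc f 0 1 hf, truncMetric_dist_eq hle]
  refine hv.trans (le_of_eq ?_)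
  rw [ENNReal.ofReal_add ENNReal.toReal_nonneg hε.le, ENNReal.ofReal_toReal hyz]

variable (E M) in
include E in
theorem riem_locRiem : @LocRiem E _ _ M (truncMetric M) := by
  intro x
  obtain ⟨R₀, hR₀, hball, G, hG, hsymm, hGn, hpos⟩ := riem_tensor (E := E) x
  obtain ⟨R₁, hR₁, hR₁₀, lam, hlam, Lam, C, hC, hb, hmid⟩ :=
    midpoint_ineq (extChartAt 𝓘(ℝ, E) x x) R₀ hR₀ G hG hsymm hpos
  obtain ⟨R₂, hR₂, hR₂₀, hd⟩ := riem_dist x R₀ hR₀ hball G hG hGn hpos
  set R := min R₁ R₂ with hR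
  have hRpos : 0 < R := lt_min hR₁ hR₂
  have s1 : Metric.ball (extChartAt 𝓘(ℝ, E) x x) R ⊆ Metric.ball (extChartAt 𝓘(ℝ, E) x x) R₁ :=
    Metric.ball_subset_ball (min_le_left _ _)
  have s2 : Metric.ball (extChartAt 𝓘(ℝ, E) x x) R ⊆ Metric.ball (extChartAt 𝓘(ℝ, E) x x) R₂ :=
    Metric.ball_subset_ball (min_le_right _ _)
  have st : Metric.ball (extChartAt 𝓘(ℝ, E) x x) R ⊆ (extChartAt 𝓘(ℝ, E) x).target :=
    (s1.trans (Metric.ball_subset_ball hR₁₀)).trans hball
  -- the small ball around x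
  have hnh : (extChartAt 𝓘(ℝ, E) x).source ∩
      (extChartAt 𝓘(ℝ, E) x) ⁻¹' Metric.ball (extChartAt 𝓘(ℝ, E) x x) R ∈ 𝓝 x := by
    refine Filter.inter_mem (extChartAt_source_mem_nhds x) ?_
    exact (continuousAt_extChartAt x).preimage_mem_nhds (Metric.ball_mem_nhds _ hRpos)
  obtain ⟨R', hR', hR's⟩ := (@Metric.mem_nhds_iff M (truncMetric M).toPseudoMetricSpace _ _).1 hnh
  refine ⟨R, R', lam, Lam, C, extChartAt 𝓘(ℝ, E) x, (extChartAt 𝓘(ℝ, E) x).symm,
    fun p v => G p v v, hRpos, hR', hlam, hC, ?_, ?_, ?_, ?_, ?_, ?_, ?_⟩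
  · exact fun p hp => (extChartAt 𝓘(ℝ, E) x).right_inv (st hp)
  · exact (continuousOn_extChartAt_symm x).mono st
  · exact (continuousOn_extChartAt x).mono (fun y hy => (hR's hy).1)
  · exact fun y hy => ⟨(hR's hy).2, (extChartAt 𝓘(ℝ, E) x).left_inv (hR's hy).1⟩
  · exact fun p hp v => hb p (s1 hp) v
  · exact fun p hp p' hp' v v' => hmid p (s1 hp) p' (s1 hp') v v'
  · intro ε hε
    obtain ⟨δ, hδ, hd'⟩ := hd ε hε
    have hden : 0 < Real.sqrt Lam + ε + 1 := by positivity
    refine ⟨min δ (1 / (Real.sqrt Lam + ε + 1)), lt_min hδ (by positivity), ?_⟩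
    intro p hp q hq hpq
    obtain ⟨h1, h2⟩ := hd' p (s2 hp) q (s2 hq) (lt_of_lt_of_le hpq (min_le_left _ _))
    have hn : ‖q - p‖ = ‖p - q‖ := norm_sub_rev q p
    have hsq : Real.sqrt (G p (q - p) (q - p)) ≤ Real.sqrt Lam * ‖q - p‖ := by
      have h3 := (hb p (s1 hp) (q - p)).2
      have h4 : Real.sqrt (G p (q - p) (q - p)) ≤ Real.sqrt (Lam * ‖q - p‖ ^ 2) :=
        Real.sqrt_le_sqrt h3
      rwa [Real.sqrt_mul' _ (by positivity), Real.sqrt_sq (norm_nonneg _)] at h4
    have hle : edist ((extChartAt 𝓘(ℝ, E) x).symm p) ((extChartAt 𝓘(ℝ, E) x).symm q) ≤ 1 := by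
      refine h1.trans ?_
      rw [← ENNReal.ofReal_one]
      refine ENNReal.ofReal_le_ofReal ?_
      have h5 : ‖q - p‖ * (Real.sqrt Lam + ε + 1) ≤ 1 := by
        rw [hn]
        have := lt_of_lt_of_le hpq (min_le_right _ _)
        exact (le_div_iff₀ hden).1 this.le
      nlinarith [norm_nonneg (q - p)]
    rw [truncMetric_dist_eq hle]
    have hne : edist ((extChartAt 𝓘(ℝ, E) x).symm p) ((extChartAt 𝓘(ℝ, E) x).symm q) ≠ ⊤ :=
      ne_top_of_le_ne_top ENNReal.one_ne_top hle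
    have h6 : (edist ((extChartAt 𝓘(ℝ, E) x).symm p) ((extChartAt 𝓘(ℝ, E) x).symm q)).toReal ≤
        Real.sqrt (G p (q - p) (q - p)) + ε * ‖q - p‖ := by
      refine ENNReal.toReal_le_of_le_ofReal (by positivity) h1
    have h7 : Real.sqrt (G p (q - p) (q - p)) - ε * ‖q - p‖ ≤
        (edist ((extChartAt 𝓘(ℝ, E) x).symm p) ((extChartAt 𝓘(ℝ, E) x).symm q)).toReal :=
      (ENNReal.ofReal_le_iff_le_toReal hne).1 h2
    rw [abs_le]
    constructor <;> linarith

end AsmR

theorem locLip_of_locSC {E : Type} [NormedAddCommGroup E] [NormedSpace ℝ E] {M : Type u}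
    [MetricSpace M] (h : LocSC E M) : LocLip E M := by
  intro x
  obtain ⟨C, R, c, φ, ψ, hC, hR, hc, h1, h2, h3, -⟩ := h x
  exact ⟨C, R, φ, ψ, hC, hR, h1, h2, h3⟩

/-- a contraction through curves of length `< L` can be replaced by one through curves of length
`≤ L0 < L` -/
theorem contrLe_of_contrLt {E : Type} [NormedAddCommGroup E] [NormedSpace ℝ E]
    [FiniteDimensional ℝ E] {M : Type u} [MetricSpace M] (hSC : LocSC E M) (hL : LocLen M)
    (α : C(UnitAddCircle, M)) (L : ℝ) (h : ContrLt α L) :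
    ∃ L0 < L, 0 ≤ L0 ∧ ContrLe α L0 := by
  have hLip : LocLip E M := locLip_of_locSC hSC
  have : LocallyCompactSpace M := locallyCompact_of_locLip hLip
  have hα : clen α < ENNReal.ofReal L := by
    obtain ⟨H, h0, -, h1⟩ := h
    have h2 := h1 0
    have h3 : (fun x => H (0, x)) = α := funext h0
    rwa [h3] at h2
  have hLpos : 0 < L := by
    by_contra hn
    rw [ENNReal.ofReal_of_nonpos (not_lt.1 hn)] at hα
    exact absurd hα (not_lt.2 zero_le)
  obtain ⟨L1, hL1, K, hK, hKn, hch⟩ := chain_of_contrLt hL (locUM_of_locSC hSC) α L h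
  obtain ⟨q, hq1, hq2⟩ := exists_between hα
  have hqt : q ≠ ⊤ := ne_top_of_lt hq2
  have hqL : q.toReal < L := (ENNReal.lt_ofReal_iff_toReal_lt hqt).1 hq2
  set L2 : ℝ := max (max q.toReal ((L1 + L) / 2)) 0 with hL2
  have h2L : L2 < L := max_lt (max_lt hqL (by linarith)) hLpos
  have h12 : L1 < L2 := lt_of_lt_of_le (by linarith : L1 < (L1 + L) / 2)
    ((le_max_right _ _).trans (le_max_left _ _))
  have hα2 : clen α < ENNReal.ofReal L2 := by
    refine hq1.trans_le ?_
    rw [← ENNReal.ofReal_toReal hqt]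
    exact ENNReal.ofReal_le_ofReal ((le_max_left _ _).trans (le_max_left _ _))
  obtain ⟨s, hs, N₀, hN₀, hN⟩ := contrLt_of_chain' hLip hL α K hK L1 L2 h12 hα2
  obtain ⟨N₁, hN₁⟩ := hch s hs
  obtain ⟨H, h0, h1, h3⟩ := hN (max N₀ N₁) (le_max_left _ _) (hN₁ _ (le_max_right _ _))
  exact ⟨L2, h2L, le_max_right _ _, H, h0, h1, fun t => (h3 t).le⟩

/-- main theorem for oriented surfaces -/
theorem main_strict {E : Type} [NormedAddCommGroup E] [NormedSpace ℝ E]
    [FiniteDimensional ℝ E] {M : Type u} [MetricSpace M] (hSC : LocSC E M) (hL : LocLen M)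
    (T : OrSurf M) (m : ℕ) (hm : 1 ≤ m) (γ : C(UnitAddCircle, M)) (L : ℝ)
    (h : ContrLt (mult m γ) L) : ContrLt γ L := by
  obtain ⟨L0, h0, h0', hc⟩ := contrLe_of_contrLt hSC hL (mult m γ) L h
  exact main_orSurf (locLip_of_locSC hSC) hL T m hm γ L0 L h0 h0' hc

section Final

variable {M : Type u} [EMetricSpace M]

/-- the length for the truncated distance -/
theorem clen_trunc (f : C(UnitAddCircle, M)) :
    @clen M (truncMetric M) f =
      eVariationOn (fun t : ℝ => f (t : UnitAddCircle)) (Set.Icc 0 1) :=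
  eVar_trunc (fun t : ℝ => f (t : UnitAddCircle)) 0 1
    (f.continuous.comp (AddCircle.continuous_mk' 1)).continuousOn

end Final

section Trans

variable {E : Type} [NormedAddCommGroup E] [NormedSpace ℝ E] {M : Type u} [TopologicalSpace M]
  [ChartedSpace E M]

/-- the charts of the maximal atlas have continuously differentiable transition maps -/
theorem trans_contDiffOn {e e' : OpenPartialHomeomorph M E}
    (he : e ∈ IsManifold.maximalAtlas 𝓘(ℝ, E) ∞ M)
    (he' : e' ∈ IsManifold.maximalAtlas 𝓘(ℝ, E) ∞ M) :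
    ContDiffOn ℝ 1 (e.symm.trans e') (e.symm.trans e').source := by
  have h := StructureGroupoid.compatible_of_mem_maximalAtlas he he'
  rw [contDiffGroupoid, mem_groupoid_of_pregroupoid] at h
  have h1 := h.1
  simp only [contDiffPregroupoid, mfld_simps] at h1
  have h2 := h1.of_le (m := 1) (by exact_mod_cast le_top)
  simpa [Function.comp_def] using h2

end Trans

section Final2

/-- the length of a closed curve -/
noncomputable def elen {M : Type u} [PseudoEMetricSpace M] (f : UnitAddCircle → M) : ENNReal :=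
  eVariationOn (fun t : ℝ => f (t : UnitAddCircle)) (Set.Icc 0 1)

/-- contraction through curves of length less than `L` -/
def EContr {M : Type u} [PseudoEMetricSpace M] (γ : C(UnitAddCircle, M)) (L : ℝ) : Prop :=
  ∃ H : C(unitInterval × UnitAddCircle, M), (∀ x, H (0, x) = γ x) ∧ (∃ c, ∀ x, H (1, x) = c) ∧
    ∀ t, elen (fun x => H (t, x)) < ENNReal.ofReal L

/-- the curve `γ` run `m` times -/
def emult {M : Type u} [TopologicalSpace M] (m : ℕ) (γ : C(UnitAddCircle, M)) :
    C(UnitAddCircle, M) :=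
  ⟨fun x => γ (m • x), γ.continuous.comp (continuous_const_smul m)⟩

theorem econtr_iff {M : Type u} [EMetricSpace M] (γ : C(UnitAddCircle, M)) (L : ℝ) :
    EContr γ L ↔ @ContrLt M (truncMetric M) γ L := by
  have key : ∀ H : C(unitInterval × UnitAddCircle, M), ∀ t : unitInterval,
      @clen M (truncMetric M) (fun x => H (t, x)) = elen (fun x => H (t, x)) := by
    intro H t
    exact clen_trunc (⟨fun x => H (t, x), H.continuous.comp (by fun_prop)⟩ : C(UnitAddCircle, M))
  constructor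
  · rintro ⟨H, h0, h1, h2⟩
    refine ⟨H, h0, h1, fun t => ?_⟩
    rw [key H t]
    exact h2 t
  · rintro ⟨H, h0, h1, h2⟩
    refine ⟨H, h0, h1, fun t => ?_⟩
    rw [← key H t]
    exact h2 t

variable {E : Type} [NormedAddCommGroup E] [NormedSpace ℝ E] [FiniteDimensional ℝ E]
  {M : Type u} [EMetricSpace M] [ChartedSpace E M] [IsManifold 𝓘(ℝ, E) ∞ M]
  [RiemannianBundle (fun x : M => TangentSpace 𝓘(ℝ, E) x)]
  [IsContMDiffRiemannianBundle 𝓘(ℝ, E) ∞ E (fun x : M => TangentSpace 𝓘(ℝ, E) x)]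
  [IsRiemannianManifold 𝓘(ℝ, E) M]

theorem main_riem (hE : Module.finrank ℝ E = 2) (A : Set (OpenPartialHomeomorph M E))
    (hAM : A ⊆ IsManifold.maximalAtlas 𝓘(ℝ, E) ∞ M) (hA : ∀ x, ∃ e ∈ A, x ∈ e.source)
    (ho : ∀ e ∈ A, ∀ e' ∈ A, ∀ p ∈ (e.symm.trans e').source,
      0 < (fderiv ℝ (e.symm.trans e') p).det)
    (m : ℕ) (hm : 1 ≤ m) (γ : C(UnitAddCircle, M)) (L : ℝ) (h : EContr (emult m γ) L) :
    EContr γ L := by
  obtain ⟨T⟩ := orSurf_of_charts hE A hA
    (fun e he e' he' => trans_contDiffOn (hAM he) (hAM he')) ho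
  rw [econtr_iff] at h ⊢
  have hL : @LocLen M (truncMetric M) := riem_locLen E M
  have hSC : @LocSC E _ _ M (truncMetric M) := 
    @locSC_of_locRiem E _ _ M (truncMetric M) hL (riem_locRiem E M)
  exact @main_strict E _ _ _ M (truncMetric M) hSC hL T m hm γ L h

end Final2

end Pool.Agent.TH317.CC
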