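import Pool.Agent.TH317.CC.Geo

/-!
# General version: no faces, only vanishing of local intersection numbers
(project MP_86dbc7_gt, helper317)
-/

set_option autoImplicit false
set_option linter.unusedVariables false

universe u

namespace Pool.Agent.TH317.CC

open Finset

section Inter

variable {D V Λ : Type*} [LinearOrder Λ] [Inhabited D] (G : Rib D V Λ)

/-- the algebraic number of crossings of the closed walk `ζ` with the inner passes of the
walk `v` -/
def crossSum (ζ v : List D) : ℤ :=
  ∑ k ∈ Ico 1 v.length, ∑ r ∈ range ζ.length,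
    lk (pass G.ipos G.pos ζ r) (pass G.ipos G.pos v k)

/-- closed walks with all vertices in `S` have intersection number zero with every walk which
starts and ends outside `S` and has its inner vertices in `S` -/
def IntZero (S : Set V) : Prop :=
  ∀ (ζ : List D) (y : V), Walk G y y ζ → (∀ e ∈ ζ, G.tl e ∈ S) →
    ∀ (v : List D) (y₁ y₂ : V), Walk G y₁ y₂ v → y₁ ∉ S → y₂ ∉ S →
      (∀ k, 1 ≤ k → k < v.length → G.tl (v.getD k default) ∈ S) → crossSum G ζ v = 0

end Inter

section GCell

variable {M : Type u} [MetricSpace M] {D Λ : Type u} [LinearOrder Λ] [Inhabited D]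
  (G : Rib D M Λ)

/-- fine graph near a compact set `K` (with vertices in `K'`): mesh `ρ`, connection of vertices at
scale `b` by walks at scale `a / 2`, vanishing of the local intersection numbers in sets between
the balls of radius `a` and `r` -/
structure GCell (K K' : Set M) (r a b ρ : ℝ) : Prop where
  inK' : ∀ d, G.tl d ∈ K'
  mesh : ∀ d, dist (G.tl d) (G.hd d) ≤ ρ
  dense : ∀ x ∈ K, ∃ d, dist x (G.tl d) ≤ ρ
  conn : ∀ x ∈ K, ∀ d d', dist x (G.tl d) < b → dist x (G.tl d') < b →
    ∃ w, Walk G (G.tl d) (G.tl d') w ∧ ∀ e ∈ w, dist x (G.tl e) < a / 2 ∧ dist x (G.hd e) < a / 2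
  int : ∀ x ∈ K, ∃ S : Set M, Metric.ball x a ⊆ S ∧ S ⊆ Metric.ball x r ∧ IntZero G S

end GCell

/-- existence of fine graphs near compact sets -/
def FineGraph (M : Type u) [MetricSpace M] : Prop :=
  ∀ K : Set M, IsCompact K → K.Nonempty → ∃ K' : Set M, IsCompact K' ∧ ∀ r > 0, ∃ a > 0, ∃ b > 0,
    a ≤ r ∧ b ≤ a / 2 ∧ ∀ ρ > 0, ∃ (D Λ : Type u) (_ : LinearOrder Λ) (_ : Inhabited D)
      (G : Rib D M Λ), GCell G K K' r a b ρ

end Pool.Agent.TH317.CC
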