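import Pool.Agent.TH317.CC.Alg

/-!
# Polygons, block walks, closed curves (project MP_86dbc7_gt, helper317)
-/

set_option autoImplicit false
set_option linter.unusedVariables false

universe u

namespace Pool.Agent.TH317.CC

open Finset

/-! ### Polygons in a metric space -/

section Polygons

variable {M : Type u} [MetricSpace M]

/-- length of an open chain of points -/
def chl : List M → ℝ
  | [] => 0
  | [_] => 0
  | x :: y :: l => dist x y + chl (y :: l)

/-- closed polygons with steps at most `r`, length less than `ℓ`, vertices in `S` -/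
def Good (r ℓ : ℝ) (S : Set M) : List M → Prop
  | [] => False
  | x :: l => List.IsChain (fun a b => dist a b ≤ r) (x :: (l ++ [x])) ∧
      chl (x :: (l ++ [x])) < ℓ ∧ ∀ y ∈ x :: l, y ∈ S

/-- elementary modifications of closed polygons: rotation of the base point, insertion of a
vertex -/
inductive PMove : List M → List M → Prop
  | rot (x : M) (l : List M) : PMove (x :: l) (l ++ [x])
  | ins (x y : M) (l : List M) : PMove (x :: l) (x :: y :: l)

/-- elementary step between good polygons -/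
def PStep (r ℓ : ℝ) (S : Set M) (P P' : List M) : Prop :=
  Good r ℓ S P ∧ Good r ℓ S P' ∧ (PMove P P' ∨ PMove P' P)

/-- the closed polygon `P` can be contracted (to a one vertex polygon) through good polygons -/
def PContr (r ℓ : ℝ) (S : Set M) (P : List M) : Prop :=
  ∃ x, Relation.ReflTransGen (PStep r ℓ S) P [x]

/-- elementary step between good polygons with at most `n` vertices -/
def PStepN (n : ℕ) (r ℓ : ℝ) (S : Set M) (P P' : List M) : Prop :=
  PStep r ℓ S P P' ∧ P.length ≤ n ∧ P'.length ≤ n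

end Polygons

/-! ### Block walks -/

section Blocks

variable {M : Type u} [MetricSpace M] {D Λ : Type u} [LinearOrder Λ] (G : Rib D M Λ)

/-- all the vertices of the walk `b` starting at `x` are at mutual distance at most `r` -/
def SmallW (r : ℝ) (x : M) (b : List D) : Prop :=
  ∀ a ∈ x :: b.map G.hd, ∀ a' ∈ x :: b.map G.hd, dist a a' ≤ r

/-- `BW G r x z w P`: the walk `w` from `x` to `z` is a concatenation of walks of diameter at
most `r`, whose starting points are the points of the list `P` -/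
inductive BW (r : ℝ) : M → M → List D → List M → Prop
  | nil (x : M) : BW r x x [] []
  | cons (x y z : M) (b w : List D) (P : List M) : Walk G x y b → SmallW G r x b →
      BW r y z w P → BW r x z (b ++ w) (x :: P)

/-- the closed walk `w` has a decomposition (up to rotation) in walks of diameter at most `r`,
such that the polygon of the starting points has length less than `ℓ - n * (4 r)` -/
def Rl (r ℓ : ℝ) (n : ℕ) (w : List D) : Prop :=
  ∃ (k : ℕ) (x : M) (P : List M), BW G r x x (w.rotate k) P ∧ chl (P ++ [x]) < ℓ - n * (4 * r)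

/-- concatenation of the walks `W x y` along an open chain of points -/
def chw (W : M → M → List D) : List M → List D
  | [] => []
  | [_] => []
  | x :: y :: l => W x y ++ chw W (y :: l)

/-- concatenation of the walks `W x y` along a closed polygon -/
def cword (W : M → M → List D) : List M → List D
  | [] => []
  | x :: l => chw W (x :: (l ++ [x]))

/-- fine cellulation near a compact set `K` (with vertices in `K'`): mesh `ρ`, connection of
vertices at scale `b` by walks at scale `a / 2`, contraction of closed walks at scale `a` inside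
balls of radius `r` -/
structure FCell (K K' : Set M) (r a b ρ : ℝ) (Fc : Set (List D)) : Prop where
  face : ∀ f ∈ Fc, IsFace G f
  inK' : ∀ d, G.tl d ∈ K'
  mesh : ∀ d, dist (G.tl d) (G.hd d) ≤ ρ
  fmesh : ∀ f ∈ Fc, ∀ c ∈ f, ∀ c' ∈ f, dist (G.tl c) (G.tl c') ≤ ρ
  dense : ∀ x ∈ K, ∃ d, dist x (G.tl d) ≤ ρ
  conn : ∀ x ∈ K, ∀ d d', dist x (G.tl d) < b → dist x (G.tl d') < b →
    ∃ w, Walk G (G.tl d) (G.tl d') w ∧ ∀ e ∈ w, dist x (G.tl e) < a / 2 ∧ dist x (G.hd e) < a / 2
  contr : ∀ x ∈ K, ∀ v z, Walk G v v z → dist x v < a →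
    (∀ e ∈ z, dist x (G.tl e) < a ∧ dist x (G.hd e) < a) →
    Relation.ReflTransGen (fun z z' => (Del G Fc z z' ∨ Del G Fc z' z) ∧ Walk G v v z' ∧
      ∀ e ∈ z', dist x (G.tl e) < r ∧ dist x (G.hd e) < r) z []

/-- a system of cells: closed sets of diameter at most `ρ`, covering the open set `U`; the cell
`j` has a boundary circuit made of the darts `d` with `inC j d` -/
structure CellSys (Fc : Set (List D)) {J : Type u} (cell : J → Set M) (inC : J → D → Prop)
    (U : Set M) (ρ : ℝ) : Prop where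
  tl_mem : ∀ j d, inC j d → G.tl d ∈ cell j
  inv_mem : ∀ j d, inC j d → inC j (G.inv d)
  conn : ∀ j d d', G.tl d ∈ cell j → G.tl d' ∈ cell j →
    ∃ w, Walk G (G.tl d) (G.tl d') w ∧ ∀ e ∈ w, inC j e
  contr : ∀ j v w, Walk G v v w → (∀ e ∈ w, inC j e) →
    Relation.ReflTransGen (fun z z' => (Del G Fc z z' ∨ Del G Fc z' z) ∧ Walk G v v z' ∧
      ∀ e ∈ z', inC j e) w []
  meet : ∀ j j', j ≠ j' → ∀ d d', G.tl d ≠ G.tl d' → G.tl d ∈ cell j → G.tl d ∈ cell j' →
    G.tl d' ∈ cell j → G.tl d' ∈ cell j' →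
      ∃ e, G.tl e = G.tl d ∧ G.hd e = G.tl d' ∧ inC j e ∧ inC j' e
  star : ∀ y ∈ U, ∃ d, ∃ O ∈ nhds y, ∀ j, (cell j ∩ O).Nonempty → G.tl d ∈ cell j
  vstar : ∀ d, G.tl d ∈ U → ∃ O ∈ nhds (G.tl d), ∀ j, (cell j ∩ O).Nonempty → G.tl d ∈ cell j
  cover : ∀ y ∈ U, ∃ j, y ∈ cell j
  path : ∀ d, ∃ j, inC j d ∧ ∃ α : ℝ → M, ContinuousOn α (Set.Icc 0 1) ∧ α 0 = G.tl d ∧
    α 1 = G.hd d ∧ ∀ t ∈ Set.Icc (0 : ℝ) 1, α t ∈ cell j
  diam : ∀ j, ∀ y ∈ cell j, ∀ y' ∈ cell j, dist y y' ≤ ρ

end Blocks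

/-! ### Square tilings of surfaces -/

/-- the side `k` of the unit square, counterclockwise, `t ∈ [0, 1]` -/
def side (k : Fin 4) (t : ℝ) : ℝ × ℝ :=
  match k with
  | 0 => (t, 0)
  | 1 => (1, t)
  | 2 => (1 - t, 1)
  | 3 => (0, 1 - t)

/-- the unit square -/
def I2 : Set (ℝ × ℝ) := Set.Icc (0, 0) (1, 1)

/-- An oriented square tiling of the surface `M`: a locally finite cover by embedded closed
squares, glued along their sides with reversal of the boundary orientations; two distinct squares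
meet in nothing, or a common corner, or a common side, and the squares around a corner form one
cycle. Every orientable surface has one (Radó): take a triangulation, its barycentric subdivision
and cut each triangle in three quadrilaterals. -/
structure SqTiling (M : Type u) [TopologicalSpace M] where
  /-- the squares -/
  F : Type u
  /-- the parametrizations (only used on the unit square) -/
  sq : F → ℝ × ℝ → M
  /-- gluing of the sides -/
  nb : F × Fin 4 → F × Fin 4
  cont : ∀ f, ContinuousOn (sq f) I2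
  inj : ∀ f, Set.InjOn (sq f) I2
  nb_nb : ∀ x, nb (nb x) = x
  nb_ne : ∀ x, (nb x).1 ≠ x.1
  glue : ∀ f k, ∀ t ∈ Set.Icc (0 : ℝ) 1,
    sq f (side k t) = sq (nb (f, k)).1 (side (nb (f, k)).2 (1 - t))
  cover : ∀ x, ∃ f, ∃ p ∈ I2, sq f p = x
  locfin : LocallyFinite (fun f => sq f '' I2)
  meet : ∀ f g, f ≠ g →
    (∀ p ∈ I2, ∀ q ∈ I2, sq f p ≠ sq g q) ∨
    (∃ i j : Fin 4, ∀ p ∈ I2, ∀ q ∈ I2, sq f p = sq g q ↔ p = side i 0 ∧ q = side j 0) ∨
    (∃ i j : Fin 4, nb (f, i) = (g, j) ∧ ∀ p ∈ I2, ∀ q ∈ I2, sq f p = sq g q ↔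
      ∃ t ∈ Set.Icc (0 : ℝ) 1, p = side i t ∧ q = side j (1 - t))
  cycle : ∀ f g i j, sq f (side i 0) = sq g (side j 0) →
    ∃ n : ℕ, (fun x : F × Fin 4 => nb (x.1, x.2 - 1))^[n] (f, i) = (g, j)

/-- existence of fine cellulations near compact sets (true for all orientable surfaces) -/
def FineCell (M : Type u) [MetricSpace M] : Prop :=
  ∀ K : Set M, IsCompact K → K.Nonempty → ∃ K' : Set M, IsCompact K' ∧ ∀ r > 0, ∃ a > 0, ∃ b > 0,
    a ≤ r ∧ b ≤ a / 2 ∧ ∀ ρ > 0, ∃ (D Λ : Type u) (_ : LinearOrder Λ) (_ : Inhabited D)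
      (G : Rib D M Λ) (Fc : Set (List D)), FCell G K K' r a b ρ Fc

/-! ### Closed curves -/

section Curves

variable {M : Type u} [MetricSpace M]

/-- the length of a closed curve -/
noncomputable def clen (f : UnitAddCircle → M) : ENNReal :=
  eVariationOn (fun t : ℝ => f (t : UnitAddCircle)) (Set.Icc 0 1)

/-- `γ` can be contracted through curves of length at most `L` -/
def ContrLe (γ : C(UnitAddCircle, M)) (L : ℝ) : Prop :=
  ∃ H : C(unitInterval × UnitAddCircle, M), (∀ x, H (0, x) = γ x) ∧ (∃ c, ∀ x, H (1, x) = c) ∧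
    ∀ t, clen (fun x => H (t, x)) ≤ ENNReal.ofReal L

/-- `γ` can be contracted through curves of length less than `L` -/
def ContrLt (γ : C(UnitAddCircle, M)) (L : ℝ) : Prop :=
  ∃ H : C(unitInterval × UnitAddCircle, M), (∀ x, H (0, x) = γ x) ∧ (∃ c, ∀ x, H (1, x) = c) ∧
    ∀ t, clen (fun x => H (t, x)) < ENNReal.ofReal L

/-- the curve `γ` run `m` times -/
def mult (m : ℕ) (γ : C(UnitAddCircle, M)) : C(UnitAddCircle, M) :=
  ⟨fun x => γ (m • x), γ.continuous.comp (continuous_const_smul m)⟩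

/-- sample points of a closed curve -/
noncomputable def sample (γ : C(UnitAddCircle, M)) (N : ℕ) : List M :=
  (List.range N).map (fun k => γ (((k : ℝ) / N : ℝ) : UnitAddCircle))

/-- locally a length space -/
def LocLen (M : Type u) [MetricSpace M] : Prop :=
  ∀ x : M, ∃ U ∈ nhds x, ∀ y ∈ U, ∀ z ∈ U, ∀ ε > 0, ∃ f : ℝ → M,
    ContinuousOn f (Set.Icc 0 1) ∧ f 0 = y ∧ f 1 = z ∧
      eVariationOn f (Set.Icc 0 1) ≤ ENNReal.ofReal (dist y z + ε)

/-- locally bi-Lipschitz to a normed space `E` -/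
def LocLip (E : Type) [NormedAddCommGroup E] (M : Type u) [MetricSpace M] : Prop :=
  ∀ x : M, ∃ (C : NNReal) (R : ℝ) (φ : M → E) (ψ : E → M), 0 < C ∧ 0 < R ∧
    LipschitzOnWith C φ (Metric.ball x R) ∧ (∀ y ∈ Metric.ball x R, ψ (φ y) = y) ∧
    LipschitzOnWith C ψ (Metric.ball (φ x) (C * R))

/-- two closed curves are homotopic through curves of length less than `L` -/
def HomLt (γ γ' : C(UnitAddCircle, M)) (L : ℝ) : Prop :=
  ∃ H : C(unitInterval × UnitAddCircle, M), (∀ x, H (0, x) = γ x) ∧ (∀ x, H (1, x) = γ' x) ∧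
    ∀ t, clen (fun x => H (t, x)) < ENNReal.ofReal L

/-- `f` realizes the closed polygon `P`, with errors `ε` -/
def Realizes (ε : ℝ) (f : C(UnitAddCircle, M)) (P : List M) : Prop :=
  ∃ τ : ℕ → ℝ, StrictMono τ ∧ τ P.length = τ 0 + 1 ∧
    ∀ (k : ℕ) (hk : k < P.length),
      f ((τ k : ℝ) : UnitAddCircle) = P[k] ∧
      eVariationOn (fun t : ℝ => f (t : UnitAddCircle)) (Set.Icc (τ k) (τ (k + 1))) ≤
        ENNReal.ofReal (dist P[k] (P[(k + 1) % P.length]'(Nat.mod_lt _ (by omega))) + ε)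

/-- statement of the arc replacement lemma -/
def ArcReplace (M : Type u) [MetricSpace M] : Prop :=
  ∀ K : Set M, IsCompact K → ∃ r₀ > 0, ∃ C₀ : NNReal, 1 ≤ C₀ ∧
    ∀ x ∈ K, ∀ (f : C(UnitAddCircle, M)) (c d : ℝ) (g : ℝ → M) (ℓ : ENNReal), c < d → d ≤ c + 1 →
      ContinuousOn g (Set.Icc c d) → g c = f (c : UnitAddCircle) → g d = f (d : UnitAddCircle) →
      (∀ t ∈ Set.Icc c d, f (t : UnitAddCircle) ∈ Metric.ball x r₀) →
      (∀ t ∈ Set.Icc c d, g t ∈ Metric.ball x r₀) →
      eVariationOn (fun t : ℝ => f (t : UnitAddCircle)) (Set.Icc c d) ≤ ℓ →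
      eVariationOn g (Set.Icc c d) ≤ ℓ →
      ∃ f' : C(UnitAddCircle, M), (∀ t ∈ Set.Icc c d, f' (t : UnitAddCircle) = g t) ∧
        (∀ t ∈ Set.Icc d (c + 1), f' (t : UnitAddCircle) = f (t : UnitAddCircle)) ∧
        ∀ L : ℝ, eVariationOn (fun t : ℝ => f (t : UnitAddCircle)) (Set.Icc d (c + 1)) + C₀ * ℓ
          < ENNReal.ofReal L → HomLt f f' L

/-- statement of the existence of almost minimizing arcs -/
def NearArc (M : Type u) [MetricSpace M] : Prop :=
  ∀ K : Set M, IsCompact K → ∃ r₁ > 0, ∀ y ∈ K, ∀ z : M, dist y z < r₁ → ∀ ε > 0,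
    ∀ c d : ℝ, c < d → ∃ g : ℝ → M, ContinuousOn g (Set.Icc c d) ∧ g c = y ∧ g d = z ∧
      eVariationOn g (Set.Icc c d) ≤ ENNReal.ofReal (dist y z + ε)

end Curves

end Pool.Agent.TH317.CC
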