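import Pool.Agent.TH317.CC.Arr

/-!
# Local properties of Riemannian distances (project MP_86dbc7_gt, helper317)
-/

set_option autoImplicit false
set_option linter.unusedVariables false

universe u

namespace Pool.Agent.TH317.CC

open Set Manifold

section Metric

/-- local uniform uniqueness of approximate midpoints -/
def LocUM (M : Type u) [MetricSpace M] : Prop :=
  ∀ K : Set M, IsCompact K → ∃ r₀ > 0, ∀ ε > 0, ∃ δ > 0, ∀ x ∈ K,
    ∀ y ∈ Metric.ball x r₀, ∀ z ∈ Metric.ball x r₀, ∀ y' ∈ Metric.ball x r₀,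
    ∀ z' ∈ Metric.ball x r₀, ∀ m ∈ Metric.ball x r₀, ∀ m' ∈ Metric.ball x r₀,
      dist y y' < δ → dist z z' < δ →
      dist y m ≤ dist y z / 2 + δ → dist m z ≤ dist y z / 2 + δ →
      dist y' m' ≤ dist y' z' / 2 + δ → dist m' z' ≤ dist y' z' / 2 + δ → dist m m' < ε

/-- local strong convexity of the squared distance functions in suitable bi-Lipschitz charts -/
def LocSC (E : Type) [NormedAddCommGroup E] [NormedSpace ℝ E] (M : Type u) [MetricSpace M] :
    Prop :=
  ∀ x : M, ∃ (C : NNReal) (R c : ℝ) (φ : M → E) (ψ : E → M), 0 < C ∧ 0 < R ∧ 0 < c ∧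
    LipschitzOnWith C φ (Metric.ball x R) ∧ (∀ y ∈ Metric.ball x R, ψ (φ y) = y) ∧
    LipschitzOnWith C ψ (Metric.ball (φ x) (C * R)) ∧
    ∀ y ∈ Metric.ball x R, ∀ m ∈ Metric.ball x R, ∀ m' ∈ Metric.ball x R,
      dist y (ψ ((1 / 2 : ℝ) • (φ m + φ m'))) ^ 2 ≤
        dist y m ^ 2 / 2 + dist y m' ^ 2 / 2 - c * ‖φ m - φ m'‖ ^ 2

/-- in suitable charts the distance is infinitesimally given by a quadratic form `g p`, which
depends on `p` in a `C^{1,1}` way (expressed through an approximate midpoint inequality) -/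
def LocRiem (E : Type) [NormedAddCommGroup E] [NormedSpace ℝ E] (M : Type u) [MetricSpace M] :
    Prop :=
  ∀ x : M, ∃ (R R' lam Lam C : ℝ) (φ : M → E) (ψ : E → M) (g : E → E → ℝ),
    0 < R ∧ 0 < R' ∧ 0 < lam ∧ 0 < C ∧
    (∀ p ∈ Metric.ball (φ x) R, φ (ψ p) = p) ∧ ContinuousOn ψ (Metric.ball (φ x) R) ∧
    ContinuousOn φ (Metric.ball x R') ∧
    (∀ y ∈ Metric.ball x R', φ y ∈ Metric.ball (φ x) R ∧ ψ (φ y) = y) ∧
    (∀ p ∈ Metric.ball (φ x) R, ∀ v, lam * ‖v‖ ^ 2 ≤ g p v ∧ g p v ≤ Lam * ‖v‖ ^ 2) ∧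
    (∀ p ∈ Metric.ball (φ x) R, ∀ p' ∈ Metric.ball (φ x) R, ∀ v v' : E,
      g ((1 / 2 : ℝ) • (p + p')) ((1 / 2 : ℝ) • (v + v')) ≤
        g p v / 2 + g p' v' / 2 - lam * ‖v - v'‖ ^ 2 / 8
          + C * ‖p - p'‖ ^ 2 * (‖v‖ ^ 2 + ‖v'‖ ^ 2)) ∧
    ∀ ε > 0, ∃ δ > 0, ∀ p ∈ Metric.ball (φ x) R, ∀ q ∈ Metric.ball (φ x) R, ‖p - q‖ < δ →
      |dist (ψ p) (ψ q) - Real.sqrt (g p (q - p))| ≤ ε * ‖q - p‖

end Metric

section Trunc

variable (M : Type u) [EMetricSpace M]

/-- truncated distance -/
noncomputable def truncDist (x y : M) : ℝ := (min (edist x y) 1).toReal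

/-- the metric space structure given by the truncated distance `min (edist, 1)`, with the same
topology -/
@[reducible] noncomputable def truncMetric : MetricSpace M where
  dist := truncDist M
  dist_self x := by simp [truncDist]
  dist_comm x y := by simp [truncDist, edist_comm]
  dist_triangle x y z := by
    have h : min (edist x z) 1 ≤ min (edist x y) 1 + min (edist y z) 1 := by
      rcases le_total (edist x y) 1 with h1 | h1
      · rcases le_total (edist y z) 1 with h2 | h2
        · rw [min_eq_left h1, min_eq_left h2]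
          exact (min_le_left _ _).trans (edist_triangle x y z)
        · rw [min_eq_right h2]
          exact (min_le_right _ _).trans le_add_self
      · rw [min_eq_right h1]
        exact (min_le_right _ _).trans le_self_add
    have f1 : min (edist x y) 1 ≠ ⊤ := ne_top_of_le_ne_top ENNReal.one_ne_top (min_le_right _ _)
    have f2 : min (edist y z) 1 ≠ ⊤ := ne_top_of_le_ne_top ENNReal.one_ne_top (min_le_right _ _)
    unfold truncDist
    rw [← ENNReal.toReal_add f1 f2]
    exact ENNReal.toReal_mono (ENNReal.add_ne_top.2 ⟨f1, f2⟩) h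
  edist := fun x y => min (edist x y) 1
  edist_dist x y := by
    have f1 : min (edist x y) 1 ≠ ⊤ := ne_top_of_le_ne_top ENNReal.one_ne_top (min_le_right _ _)
    exact (ENNReal.ofReal_toReal f1).symm
  toUniformSpace := inferInstance
  uniformity_dist := by
    apply le_antisymm
    · refine le_iInf fun ε => le_iInf fun hε => Filter.le_principal_iff.2 ?_
      rw [mem_uniformity_edist]
      refine ⟨ENNReal.ofReal ε, ENNReal.ofReal_pos.2 hε, fun {a b} h => ?_⟩
      change (min (edist a b) 1).toReal < ε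
      have h2 : edist a b ≠ ⊤ := ne_top_of_lt h
      exact (ENNReal.toReal_mono h2 (min_le_left _ _)).trans_lt
        ((ENNReal.lt_ofReal_iff_toReal_lt h2).1 h)
    · intro t ht
      obtain ⟨ε, hε, h⟩ := mem_uniformity_edist.1 ht
      have f1 : min ε 1 ≠ ⊤ := ne_top_of_le_ne_top ENNReal.one_ne_top (min_le_right _ _)
      have f0 : 0 < (min ε 1).toReal := ENNReal.toReal_pos (by
        have : 0 < min ε 1 := lt_min hε one_pos
        exact this.ne') f1
      refine Filter.mem_iInf_of_mem (min ε 1).toReal (Filter.mem_iInf_of_mem f0 ?_)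
      rintro ⟨a, b⟩ hab
      change (min (edist a b) 1).toReal < (min ε 1).toReal at hab
      have f2 : min (edist a b) 1 ≠ ⊤ := ne_top_of_le_ne_top ENNReal.one_ne_top (min_le_right _ _)
      have h3 : min (edist a b) 1 < min ε 1 := (ENNReal.toReal_lt_toReal f2 f1).1 hab
      apply h
      rcases le_total (edist a b) 1 with h4 | h4
      · rw [min_eq_left h4] at h3
        exact h3.trans_le (min_le_left _ _)
      · rw [min_eq_right h4] at h3
        exact absurd (h3.trans_le (min_le_right _ _)) (lt_irrefl _)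
  eq_of_dist_eq_zero := by
    intro x y h
    have f1 : min (edist x y) 1 ≠ ⊤ := ne_top_of_le_ne_top ENNReal.one_ne_top (min_le_right _ _)
    have h' : min (edist x y) 1 = 0 := (ENNReal.toReal_eq_zero_iff _).1 h |>.resolve_right f1
    rcases min_choice (edist x y) 1 with h3 | h3
    · rw [h3] at h'
      exact edist_eq_zero.1 h'
    · rw [h3] at h'
      exact absurd h' one_ne_zero

end Trunc

end Pool.Agent.TH317.CC
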